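import Pool.Agent.Z894.LG
import Pool.Agent.Z864.LQ.Lq

/-!
# Project SL (helper818), part SP: sufficiency at the odd primes (helper402)
-/

set_option autoImplicit false

namespace Pool.Agent.N402.SL

open Pool.Agent.TH841.LS.LOCA0
open Pool.Agent.Z894.LG (two_ne aux)
open Pool.Agent.Z702 (LocI)

variable {p : ℕ} [hp : Fact p.Prime]

lemma b_ne {D : ℤ} (hD : D ≠ 0) : (-7 * D ^ 2 : ℤ) ≠ 0 :=
  mul_ne_zero (by norm_num) (pow_ne_zero 2 hD)

lemma c_eq (D : ℤ) : (-42 * D : ℤ) ^ 2 - 4 * (-7 * D ^ 2) = 7 * (16 * D) ^ 2 := by ring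

lemma c_ne {D : ℤ} (hD : D ≠ 0) : (-42 * D : ℤ) ^ 2 - 4 * (-7 * D ^ 2) ≠ 0 := by
  rw [c_eq]
  exact mul_ne_zero (by norm_num) (pow_ne_zero 2 (mul_ne_zero (by norm_num) hD))

lemma sqQ (h2 : p ≠ 2) (u : ℤ) (hu : quadraticChar (ZMod p) (u : ZMod p) = 1) :
    IsSquare (u : ℚ_[p]) := by
  obtain ⟨v, hv⟩ := sq_of_char h2 (u := (u : ℤ_[p])) (by rw [map_intCast]; exact hu)
  refine ⟨v, ?_⟩
  have := congrArg (fun z : ℤ_[p] => (z : ℚ_[p])) hv
  push_cast at this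
  exact this

lemma int_ne {u : ℤ} (hu : ¬ (p : ℤ) ∣ u) : (u : ZMod p) ≠ 0 := fun h0 =>
  hu ((ZMod.intCast_zmod_eq_zero_iff_dvd u p).1 h0)

lemma seven_ne (h7 : p ≠ 7) : (7 : ZMod p) ≠ 0 := by
  intro h0
  have : ((7 : ℕ) : ZMod p) = 0 := by exact_mod_cast h0
  rw [ZMod.natCast_eq_zero_iff] at this
  exact h7 ((Nat.prime_dvd_prime_iff_eq hp.out (by norm_num)).1 this)

lemma loc_sq (h2 : p ≠ 2) {D d : ℤ} (hD : D ≠ 0)
    (hd : quadraticChar (ZMod p) (d : ZMod p) = 1) : LocI ℚ_[p] (-42 * D) (-7 * D ^ 2) d := by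
  have hd0 : d ≠ 0 := by
    rintro rfl
    rw [Int.cast_zero, quadraticChar_zero] at hd
    norm_num at hd
  exact (Pool.Agent.Z864.LQ.t_LQ _ _ d (b_ne hD) (c_ne hD) hd0).1 p (Or.inl (sqQ h2 d hd))

lemma loc_sq7 (h2 : p ≠ 2) {D d : ℤ} (hD : D ≠ 0)
    (hd : quadraticChar (ZMod p) ((7 * d : ℤ) : ZMod p) = 1) :
    LocI ℚ_[p] (-42 * D) (-7 * D ^ 2) d := by
  have hd0 : d ≠ 0 := by
    rintro rfl
    rw [mul_zero, Int.cast_zero, quadraticChar_zero] at hd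
    norm_num at hd
  refine (Pool.Agent.Z864.LQ.t_LQ _ _ d (b_ne hD) (c_ne hD) hd0).1 p (Or.inr ?_)
  obtain ⟨v, hv⟩ := sqQ h2 _ hd
  refine ⟨v * (16 * (D : ℚ_[p])), ?_⟩
  push_cast at hv ⊢
  linear_combination (16 * (D : ℚ_[p])) ^ 2 * hv

/-- seven is not a square modulo `p`: every unit is a square or seven times a square -/
lemma loc_dich (h2 : p ≠ 2) {D d : ℤ} (hD : D ≠ 0) (hd : (d : ZMod p) ≠ 0)
    (h7 : quadraticChar (ZMod p) 7 = -1) : LocI ℚ_[p] (-42 * D) (-7 * D ^ 2) d := by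
  rcases quadraticChar_dichotomy hd with h | h
  · exact loc_sq h2 hD h
  · apply loc_sq7 h2 hD
    push_cast
    rw [map_mul, h7, h]
    norm_num

lemma chi_m1 (h4 : p % 4 = 1) : quadraticChar (ZMod p) (-1) = 1 := by
  have h := hp.out
  have : IsSquare (-1 : ZMod p) := ZMod.exists_sq_eq_neg_one_iff.2 (by omega)
  exact (quadraticChar_one_iff_isSquare (by simp)).2 this

lemma chi_m3 (h4 : p % 4 = 3) : quadraticChar (ZMod p) (-1) = -1 := by
  have : ¬ IsSquare (-1 : ZMod p) := by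
    rw [ZMod.exists_sq_eq_neg_one_iff]
    omega
  exact quadraticChar_neg_one_iff_not_isSquare.2 this

theorem sp1 (h2 : p ≠ 2) (h7 : p ≠ 7) {D d : ℤ} (hD : ¬ (p : ℤ) ∣ D) (hd : ¬ (p : ℤ) ∣ d) :
    LocI ℚ_[p] (-42 * D) (-7 * D ^ 2) d := by
  have hD0 : D ≠ 0 := by
    rintro rfl
    exact hD (dvd_zero _)
  have hd0 : d ≠ 0 := by
    rintro rfl
    exact hd (dvd_zero _)
  have hDz := int_ne hD
  have hdz := int_ne hd
  have h7z := seven_ne (p := p) h7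
  rcases quadraticChar_dichotomy h7z with h | h
  · rcases quadraticChar_dichotomy hdz with h' | h'
    · exact loc_sq h2 hD0 h'
    · refine aux p _ _ d h2 ?_ ?_ hd0 h'
      · push_cast
        exact mul_ne_zero (neg_ne_zero.2 h7z) (pow_ne_zero 2 hDz)
      · have e : (((-42 * D : ℤ) : ZMod p)) ^ 2 - 4 * (((-7 * D ^ 2 : ℤ)) : ZMod p) =
            7 * (16 * (D : ZMod p)) ^ 2 := by
          push_cast
          ring
        have h16 : (16 : ZMod p) ≠ 0 := by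
          have : (16 : ZMod p) = 2 ^ 4 := by norm_num
          rw [this]
          exact pow_ne_zero 4 (two_ne h2)
        rw [e, map_mul, h, quadraticChar_sq_one' (mul_ne_zero h16 hDz), one_mul]
  · exact loc_dich h2 hD0 hdz h

theorem sp2 (h2 : p ≠ 2) {D d : ℤ} (hD : D ≠ 0) (hd : ¬ (p : ℤ) ∣ d)
    (hs : IsSquare ((d : ℤ) : ZMod p)) : LocI ℚ_[p] (-42 * D) (-7 * D ^ 2) d :=
  loc_sq h2 hD ((quadraticChar_one_iff_isSquare (int_ne hd)).2 hs)

theorem sp3 (h2 : p ≠ 2) {D d : ℤ} (hD : D ≠ 0) (h7 : ¬ IsSquare (-7 : ZMod p))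
    (h4 : p % 4 = 1) (hd : ¬ (p : ℤ) ∣ d) : LocI ℚ_[p] (-42 * D) (-7 * D ^ 2) d := by
  apply loc_dich h2 hD (int_ne hd)
  have h := quadraticChar_neg_one_iff_not_isSquare.2 h7
  have e : (-7 : ZMod p) = -1 * 7 := by ring
  rw [e, map_mul, chi_m1 h4, one_mul] at h
  exact h

theorem sp4 (h2 : p ≠ 2) {D d : ℤ} (hD : D ≠ 0) (h4 : p % 4 = 3) (hp7 : p ≠ 7)
    (h7 : IsSquare (-7 : ZMod p)) (hd : ¬ (p : ℤ) ∣ d) :
    LocI ℚ_[p] (-42 * D) (-7 * D ^ 2) d := by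
  apply loc_dich h2 hD (int_ne hd)
  have h := (quadraticChar_one_iff_isSquare (neg_ne_zero.2 (seven_ne (p := p) hp7))).2 h7
  have e : (-7 : ZMod p) = -1 * 7 := by ring
  rw [e, map_mul, chi_m3 h4] at h
  linarith

theorem sp5 (h2 : p ≠ 2) (h7 : p ≠ 7) {D d D' d' : ℤ} (hD : D = p * D') (hd : d = p * d')
    (hD' : ¬ (p : ℤ) ∣ D') (hd' : ¬ (p : ℤ) ∣ d')
    (ht : ∃ t : ZMod p, t ^ 2 = -7 ∧ IsSquare (((D' * d' : ℤ) : ZMod p) * t)) :
    LocI ℚ_[p] (-42 * D) (-7 * D ^ 2) d := by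
  obtain ⟨t, ht, hsq⟩ := ht
  have h7z := seven_ne (p := p) h7
  have ht0 : t ≠ 0 := by
    rintro rfl
    apply h7z
    linear_combination ht
  -- a root of `s² = -7` which reduces to `t`
  obtain ⟨s, hs, hst⟩ : ∃ s : ℤ_[p], s ^ 2 = -7 ∧ PadicInt.toZMod s = t := by
    obtain ⟨v, hv⟩ := sq_of_char h2 (u := (-7 : ℤ_[p])) (by
      have e : PadicInt.toZMod (-7 : ℤ_[p]) = (t : ZMod p) ^ 2 := by
        rw [ht, map_neg, map_ofNat]
      rw [e]
      exact quadraticChar_sq_one' ht0)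
    have hv2 : (PadicInt.toZMod v) ^ 2 = t ^ 2 := by
      rw [ht, ← map_pow, pow_two, ← hv, map_neg, map_ofNat]
    rcases sq_eq_sq_iff_eq_or_eq_neg.1 hv2 with h | h
    · exact ⟨v, by rw [hv]; ring, h⟩
    · exact ⟨-v, by rw [hv]; ring, by rw [map_neg, h, neg_neg]⟩
  have hD'z := int_ne hD'
  have hd'z := int_ne hd'
  obtain ⟨v, hv⟩ := sq_of_char h2 (u := ((D' * d' : ℤ) : ℤ_[p]) * s) (by
    rw [map_mul, map_intCast, hst]
    refine (quadraticChar_one_iff_isSquare (mul_ne_zero ?_ ht0)).2 hsq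
    push_cast
    exact mul_ne_zero hD'z hd'z)
  have hs' : (s : ℚ_[p]) ^ 2 = -7 := by
    have := congrArg (fun z : ℤ_[p] => (z : ℚ_[p])) hs
    push_cast at this
    rw [this]
    rfl
  have hv' : (D' : ℚ_[p]) * (d' : ℚ_[p]) * (s : ℚ_[p]) = (v : ℚ_[p]) * v := by
    have := congrArg (fun z : ℤ_[p] => (z : ℚ_[p])) hv
    push_cast at this
    exact this
  have hp0 : (p : ℚ_[p]) ≠ 0 := by exact_mod_cast hp.out.ne_zero
  have hD'0 : (D' : ℚ_[p]) ≠ 0 := by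
    have : D' ≠ 0 := by
      rintro rfl
      exact hD' (dvd_zero _)
    exact_mod_cast this
  have hd'0 : (d' : ℚ_[p]) ≠ 0 := by
    have : d' ≠ 0 := by
      rintro rfl
      exact hd' (dvd_zero _)
    exact_mod_cast this
  set σ : ℚ_[p] := (s : ℚ_[p]) with hσ
  have hs0 : σ ≠ 0 := by
    intro h
    rw [h] at hs'
    norm_num at hs'
  have h3 : 3 + σ ≠ 0 := by
    intro h
    have h16 : (16 : ℚ_[p]) = 0 := by linear_combination (3 - σ) * h + hs'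
    norm_num at h16
  refine ⟨(p : ℚ_[p]) * D' * (σ * (3 + σ) ^ 2), 0, (v : ℚ_[p]) * (3 + σ) / d', ?_, ?_, ?_⟩
  · exact mul_ne_zero (mul_ne_zero hp0 hD'0) (mul_ne_zero hs0 (pow_ne_zero 2 h3))
  · subst hD
    push_cast
    have hx : (σ * (3 + σ) ^ 2) = 2 * (σ - 21) := by linear_combination (6 + σ) * hs'
    rw [hx]
    linear_combination (-((p : ℚ_[p]) * D') ^ 3 * (2 * (σ - 21)) * 4) * hs'
  · subst hd
    push_cast
    field_simp
    linear_combination hv'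

end Pool.Agent.N402.SL
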